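import Pool.Agent.R538.Hit.In

/-!
# The outcome of Hit on directed graphs with cycles is EXPTIME-complete

For each of the three outcomes (the player to move can force a win, the other player can, draw), for
all positions and for the positions with exactly `t` token types, for every `t ≥ 2`.

Idea of the lower bound (reduction from alternating Boolean register machines).  One control token,
of type 0, one token of type 1 for each register, and one tempo token of type 1 with a single move.
The token of register `j` lives in its own region with vertices `p0`, `p1` (the register holds 0
or 1), `q` (lifted), challenge vertices `c0`, `c1`, `c` and a final vertex `t`; its edges are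
`p0, p1 -> q -> p0, p1, t`, `pb -> cb -> t` and `pb -> c -> t`.  When the control token is out of
play, a position is lost for the player to move iff the number of lifted tokens, tokens at challenge
vertices and unused tempo tokens is even.  A player claims that a register does not hold `b` by
moving the control token to `cb`: if the register does hold `b`, then the opponent hits the control
token there and wins by parity; otherwise the challenger wins by parity.  Because of the tempo token
the number is odd during the intended play, so that any deviation is punished by a move of the
control token to a final vertex or to one of the vertices `q` and `c`.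
-/

set_option autoImplicit false

namespace Pool.Agent.Results.MP_901ac1_lc.HitExptimeComplete

open Pool.Agent.NPC Pool.Agent.R538.Hit Pool.Agent.H820R2.SS

/-- Completeness for `EXPTIME` under polynomial-time many-one reductions. -/
def Complete (L : Set (List Bool)) : Prop :=
  InEXPTIME L ∧ ∀ L' : Set (List Bool), InEXPTIME L' → Reduces L' L

/-- The outcome problem: the positions with a number of token types in `T` that have the outcome
`W`. -/
def Outcome (W : Desc → Prop) (T : ℕ → Prop) : Set (List Bool) :=
  lang (fun A : Desc => IsPosition A ∧ T A.2.1.length ∧ W A)

theorem not_inP {L : Set (List Bool)} (h : Complete L) : ¬ InP L := by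
  intro hP
  obtain ⟨L', h1, h2⟩ := exists_exptime_not_p
  exact h2 (InP.of_reduces (h.2 L' h1) hP)

/-- **Deciding the outcome of a Hit position is `EXPTIME`-complete**: for each of the
three outcomes (the player to move can force a win, the other player can, neither can), for all
positions and for the positions with exactly `t` token types, whatever `t ≥ 2` is. Hence none of
these problems is in `P`. -/
theorem result (W : Desc → Prop) (hW : W = MoverWins ∨ W = OtherWins ∨ W = Drawn) :
    Complete (Outcome W (fun _ => True)) ∧ ¬ InP (Outcome W (fun _ => True)) ∧
    ∀ t, 2 ≤ t → Complete (Outcome W (fun s => s = t)) ∧ ¬ InP (Outcome W (fun s => s = t)) := by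
  have key : ∀ (T : ℕ → Prop) (q : Desc → Bool), NPC.Poly q → (∀ A, q A = true ↔ T A.2.1.length) →
      ∀ t, 2 ≤ t → T t → Complete (Outcome W T) := by
    intro T q hq hT t ht hTt
    have e : Outcome W T = lang (fun A : Desc => IsPosition A ∧ q A = true ∧ W A) :=
      Pool.Agent.R538.Hit.In.lang_congr fun A => by rw [hT A]
    rw [e]
    exact ⟨(Pool.Agent.R538.Hit.In.exp_of hW hq).inEXPTIME, fun L' hL' =>
      Pool.Agent.R538.Hit.In.hard_of hW ht (fun A hA => (hT A).2 (hA ▸ hTt)) hL'⟩
  have h0 : Complete (Outcome W (fun _ => True)) :=
    key _ (fun _ => true) (NPC.Poly.const _) (fun _ => by simp) 2 le_rfl trivial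
  refine ⟨h0, not_inP h0, fun t ht => ?_⟩
  have h1 : Complete (Outcome W (fun s => s = t)) :=
    key _ (fun A => decide (A.2.1.length = t)) (by fun_prop) (fun A => by simp) t ht rfl
  exact ⟨h1, not_inP h1⟩

end Pool.Agent.Results.MP_901ac1_lc.HitExptimeComplete
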